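import Pool.Agent.H899.RA.Last
import Pool.Agent.H899.RG.Last
import Pool.Agent.H899.RG.Stm

set_option autoImplicit false

/-!
# The relative nef cone conjecture for the fibre spaces `Bl_0(E^n) / G → Z`, in all dimensions

Let `R = ℤ[ω]` or `R = ℤ[i]`, let `E = ℂ / R`, let `G` be any finite subgroup of `GL_n(ℂ)` which
preserves the lattice `R^n`, let `Y = E^n / G`, and let `X = Bl_0(E^n) / G`. Each fibre space `Y → Z`
is of the form `Z = (E^n / B) / G` where `B` is an abelian subvariety of `E^n` which is mapped to itself
by `G`, and after a change of the basis of `R^n` the abelian subvariety `B` is `0 × E^r ⊆ E^p × E^r`.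
The group `G` is then block triangular (not necessarily block diagonal), it is `Stable` below. The
theorem is the relative nef cone conjecture for `X → Z`, together with an explicit description of the
relative nef cone, for all `p ≥ 1`, and `1 ≤ r ≤ 6` if `R = ℤ[ω]`, `1 ≤ r ≤ 3` if `R = ℤ[i]`. Each
complex abelian variety on which a group of at least three scalars acts is of the form `E^n`.

Let `m` be the number of scalar matrices in `G`. If `m ≥ 3`, `p ≥ 1` and `G` contains no reflections,
then there is an effective divisor `Δ` for which `(X / Z, Δ)` is a klt log Calabi-Yau pair if and only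
if `r < m`; since `m` divides `6` or `4`, the theorem covers all these pairs, in all dimensions. (Let
`P` be the image of the exceptional divisor `Ẽ`. For `n ≤ m` one takes `Δ = (1 - n / m) P`. In general
the pullback of `Δ` to `Bl_0(E^n)` is `a Ẽ + Γ` with `Γ` vertical, as `K + Δ` is numerically trivial
over `Z`, hence `Γ` has multiplicity `n - m + a` along the strict transform of `B`, which has
codimension `p`, so that `n - m < p`; conversely if `0 < n - m < p` one takes for `Γ` the strict
transform of a general divisor in `E^p` with multiplicity `n - m` at `0`, with small coefficients.)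
If there are reflections, then the numerically trivial divisor `K_X + (1 - n / m) P +
∑ (1 - 1 / e_i) D_i` gives a klt log Calabi-Yau pair for `n ≤ m`, where `D_i` are the images of the
divisors which are fixed by `e_i` elements of `G`.

The proof: the class of a line bundle in `N^1(X/Z)` is the restriction of its Chern form to the tangent
space `ℂ^r` of `B`, together with a multiplicity at `0`. To see that a class `(h, b)` with
`0 ≤ b ≤ h(v, v)` is relatively nef and effective, `h` is extended to a form `h + b ∑ |z_i|²` on `ℂ^n`,
which is decomposed into squares of integral linear functions by the key inequalities in rank `r`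
(`Pool.Agent.R895`, `Pool.Agent.T6.H34`, `Pool.Agent.T6.H41`); the sum of the translates of this
decomposition under `G` is the decomposition of a `G`-invariant form on `ℂ^n` whose restriction to
`ℂ^r` is a multiple of `h`, and theta functions give sections. The group of the automorphisms over `Z`
is more subtle: an automorphism `u` of the lattice `R^r` which commutes with the restriction of `G` need
not extend to an automorphism of `X` over `Z`. It does if `u` is congruent to `1` modulo the order of
`G`: one extends `u` by the identity on the complement of `ℂ^r` given by the kernel of an equivariant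
projection. Reduction theory for this congruence subgroup gives the rational polyhedral cone.

`QBundle` is defined in `Pool.Agent.T6.H34.EK.Defs`, together with `grp` and `PresLat` for `ℤ[ω]`; for
`ℤ[i]` the latter are in `Pool.Agent.T6.H34.GE.Defs`; `NR`, `integral`, `semiample`, `effective`,
`nefCone`, `effCone`, `nefEff`, `IsPullback`, `IsOver`, `IsAutGroup` and `HasDomain` in
`Pool.Agent.H899.ER.Defs`; `RelCone` in `Pool.Agent.H899.RG.Stm`; `incl` and `Stable` in `Pool.Agent.H899.ER.Fin`; `Lat` (vectors with
coordinates in `ℤ[ω]`), `BlBundle`, `IsClass`, the sections and `Normalizes` in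
`Pool.Agent.R895.Defs`; `Lat` for `ℤ[i]` in `Pool.Agent.T6.H34.GK.Defs`; `kap = 2 / √3` in
`Pool.Agent.R895.Sig`; `LinGrp`, `Preserves` and `IsFundDomain` in `Pool.Agent.Y167.Stm`; `cone` in
`Pool.Agent.Y167.ConeDef`.
-/

namespace Pool.Agent.Results.MP_20d318_ag.AllFibreSpaces

open Pool.Agent.H899.ER
open Pool.Agent.H899.RG (RelCone)

/-- Let `R = ℤ[ω]` and `1 ≤ r ≤ 6`, or `R = ℤ[i]` and `1 ≤ r ≤ 3`, and let `p ≥ 1` be arbitrary. Let
`G` be a finite group of linear automorphisms of `ℂ^(p + r)` which preserves the lattice `R^(p + r)` and
the subspace `0 × ℂ^r`. Let `E = ℂ / R`, `X = Bl_0(E^(p + r)) / G` and `Z = E^p / G`. A class in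
`N^1(X/Z)` is a pair `(h, b)` where `h` is a hermitian form on `ℂ^r` and `b` is the coefficient of the
exceptional divisor `-Ẽ` of `Bl_0(E^(p + r))`. The relative nef cone is the cone of all `(h, b)` in
`N^1(X/Z)` such that `0 ≤ κ b ≤ h(v, v)` for all nonzero lattice vectors `v` in `ℂ^r`, where
`κ = 2 / √3` for `R = ℤ[ω]` and `κ = 1` for `R = ℤ[i]`. For each group `𝒢` of linear automorphisms of
`N^1(X/Z)` with the properties of the image of `Aut(X/Z)` (`IsAutGroup`), there is a finite set `S` of
integral classes such that the cone `Π` spanned by `S` consists of nef effective classes and is a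
fundamental domain for the action of `𝒢` on the cone `A^e(X/Z)` of nef effective classes. -/
theorem result :
    (∀ p r : ℕ, 1 ≤ p → 1 ≤ r → r ≤ 6 →
      ∀ G : Subgroup ((Fin (p + r) → ℂ) ≃ₗ[ℂ] (Fin (p + r) → ℂ)), Finite G →
      ∀ hG : Pool.Agent.T6.H34.EK.PresLat G, Stable G (incl p r) →
        RelCone (Pool.Agent.T6.H34.EK.grp G hG) (incl p r) Pool.Agent.R895.kap
          Pool.Agent.R895.Lat) ∧
    (∀ p r : ℕ, 1 ≤ p → 1 ≤ r → r ≤ 3 →
      ∀ G : Subgroup ((Fin (p + r) → ℂ) ≃ₗ[ℂ] (Fin (p + r) → ℂ)), Finite G →
      ∀ hG : Pool.Agent.T6.H34.GE.PresLat G, Stable G (incl p r) →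
        RelCone (Pool.Agent.T6.H34.GE.grp G hG) (incl p r) 1 Pool.Agent.T6.H34.GK.Lat) := by
  refine ⟨fun p r _ hr h6 G hfin hG hS => ?_, fun p r hp hr h3 G hfin hG hS => ?_⟩
  · exact ⟨fun x => (Pool.Agent.H899.RA.last p r hr h6 G hfin hG hS).1 x,
      fun 𝒢 h𝒢 => (Pool.Agent.H899.RA.last p r hr h6 G hfin hG hS).2 𝒢 h𝒢⟩
  · refine ⟨fun x => ?_,
      fun 𝒢 h𝒢 => (Pool.Agent.H899.RG.last p r hp hr h3 G hfin hG hS).2 𝒢 h𝒢⟩
    rw [(Pool.Agent.H899.RG.last p r hp hr h3 G hfin hG hS).1 x]
    simp only [one_mul]

end Pool.Agent.Results.MP_20d318_ag.AllFibreSpaces
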